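import Pool.Agent.Helper73.RS.St

/-! Project RS (MP_ecaebc_co), module CON. -/

set_option autoImplicit false

namespace Pool.Agent.Helper58.RS

open Pool.Agent.Helper73.RS
open Filter Topology

theorem holds_CON : Pool.Agent.Helper73.RS.StCON := by
  intro m hm hmm c hc h0
  have bP : ∀ x y : ℕ, |1 + c x * c y| ≤ 2 := by
    intro x y
    rcases hc x with h | h <;> rcases hc y with h' | h' <;> rw [h, h'] <;> norm_num
  set D1 : ℕ → ℕ → ℝ := fun n z => m (fun T => 1 + c ((n + z) * T) * c (z * T)) with hD1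
  set D2 : ℕ → ℝ := fun n => m (fun z => D1 n z) with hD2
  have b1 : ∀ n z, |D1 n z| ≤ 2 := fun n z => hm.abs_le fun T => bP _ _
  have b2 : ∀ n, |D2 n| ≤ 2 := fun n => hm.abs_le fun z => b1 n z
  have hsum : m D2 ≤ 0 := h0
  -- integrate over `T`
  have s1 : ∀ n z1 z2 : ℕ, 2 ≤ D1 n (z1 + z2) + D1 (n + z1) z2 + D1 z1 z2 := by
    intro n z1 z2
    have k1 : Bd (fun T => 1 + c ((n + (z1 + z2)) * T) * c ((z1 + z2) * T)) := ⟨2, fun T => bP _ _⟩
    have k2 : Bd (fun T => 1 + c ((n + z1 + z2) * T) * c (z2 * T)) := ⟨2, fun T => bP _ _⟩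
    have k3 : Bd (fun T => 1 + c ((z1 + z2) * T) * c (z2 * T)) := ⟨2, fun T => bP _ _⟩
    have e1 := hm.ge_of_ge (C := 2) ((k1.add k2).add k3) (fun T => by
      rw [← add_assoc n z1 z2]
      rcases hc ((n + z1 + z2) * T) with ha | ha <;> rcases hc ((z1 + z2) * T) with hb | hb <;>
        rcases hc (z2 * T) with hg | hg <;> rw [ha, hb, hg] <;> norm_num)
    rw [hm.add _ _ (k1.add k2) k3, hm.add _ _ k1 k2] at e1
    exact e1
  -- integrate over `z2`
  have s2 : ∀ n z1 : ℕ, 2 ≤ m (fun z2 => D1 n (z1 + z2)) + D2 (n + z1) + D2 z1 := by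
    intro n z1
    have k1 : Bd (fun z2 => D1 n (z1 + z2)) := ⟨2, fun z => b1 _ _⟩
    have k2 : Bd (fun z2 => D1 (n + z1) z2) := ⟨2, fun z => b1 _ _⟩
    have k3 : Bd (fun z2 => D1 z1 z2) := ⟨2, fun z => b1 _ _⟩
    have e1 := hm.ge_of_ge (C := 2) ((k1.add k2).add k3) (fun z2 => s1 n z1 z2)
    rw [hm.add _ _ (k1.add k2) k3, hm.add _ _ k1 k2] at e1
    exact e1
  -- integrate over `z1`
  have s3 : ∀ n : ℕ, 2 ≤ D2 n + m (fun z1 => D2 (n + z1)) + m D2 := by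
    intro n
    have k1 : Bd (fun z1 => m (fun z2 => D1 n (z1 + z2))) :=
      ⟨2, fun z => hm.abs_le fun z' => b1 _ _⟩
    have k2 : Bd (fun z1 => D2 (n + z1)) := ⟨2, fun z => b2 _⟩
    have k3 : Bd D2 := ⟨2, fun z => b2 _⟩
    have e1 := hm.ge_of_ge (C := 2) ((k1.add k2).add k3) (fun z1 => s2 n z1)
    rw [hm.add _ _ (k1.add k2) k3, hm.add _ _ k1 k2] at e1
    have e2 : m (fun z1 => m (fun z2 => D1 n (z1 + z2))) = D2 n := by
      rw [← mul_def m m (D1 n), hmm]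
    rw [e2] at e1
    exact e1
  -- integrate over `n`
  have k1 : Bd D2 := ⟨2, fun z => b2 _⟩
  have k2 : Bd (fun n => m (fun z1 => D2 (n + z1))) := ⟨2, fun z => hm.abs_le fun z' => b2 _⟩
  have k3 : Bd (fun _ : ℕ => m D2) := Bd.const _
  have e1 := hm.ge_of_ge (C := 2) ((k1.add k2).add k3) (fun n => s3 n)
  rw [hm.add _ _ (k1.add k2) k3, hm.add _ _ k1 k2, hm.const] at e1
  have e2 : m (fun n => m (fun z1 => D2 (n + z1))) = m D2 := by
    rw [← mul_def m m D2, hmm]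
  rw [e2] at e1
  linarith

end Pool.Agent.Helper58.RS
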