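import Pool.Agent.Helper73.RS.St

/-! Project RS (MP_ecaebc_co), module DEL. -/

set_option autoImplicit false

namespace Pool.Agent.Helper58.RS

open Pool.Agent.Helper73.RS
open Filter Topology

private lemma sign_abs {c : ℕ → ℝ} (hc : ∀ x, c x = 1 ∨ c x = -1) (x y : ℕ) :
    |c x * c y| ≤ 1 := by
  rcases hc x with h | h <;> rcases hc y with h' | h' <;> rw [h, h'] <;> norm_num

theorem holds_DEL : Pool.Agent.Helper73.RS.StDEL := by
  intro m hm hD c hc h1 h2
  have bP : ∀ x y : ℕ, |1 + c x * c y| ≤ 2 := by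
    intro x y
    have h := abs_le.1 (sign_abs hc x y)
    rw [abs_le]
    constructor <;> linarith
  have bM : ∀ x y : ℕ, |1 - c x * c y| ≤ 2 := by
    intro x y
    have h := abs_le.1 (sign_abs hc x y)
    rw [abs_le]
    constructor <;> linarith
  refine le_trans (hm.mono_pos ?_ ?_ ?_) h1
  · exact ⟨2, fun n => hm.mean.abs_le fun z => hm.mean.abs_le fun T => bP _ _⟩
  · exact ⟨2, fun n => hm.mean.abs_le fun z => hm.mean.abs_le fun T => bP _ _⟩
  · intro n hn
    refine hm.mono_pos ⟨2, fun z => hm.mean.abs_le fun T => bP _ _⟩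
      ⟨2, fun z => hm.mean.abs_le fun T => bP _ _⟩ ?_
    intro z hz
    have b1 : Bd (fun T => 1 + c ((n + z) * T) * c (n * n * z * T)) := ⟨2, fun T => bP _ _⟩
    have b2 : Bd (fun T => 1 - c (n * n * z * T) * c (z * T)) := ⟨2, fun T => bM _ _⟩
    have b3 : Bd (fun T => 1 + c ((n + z) * T) * c (z * T)) := ⟨2, fun T => bP _ _⟩
    have b4 : Bd (fun T => 1 - c (n * n * T) * c T) := ⟨2, fun T => bM _ _⟩
    have e1 : m (fun T => 1 + c ((n + z) * T) * c (z * T)) ≤
        m (fun T => (1 + c ((n + z) * T) * c (n * n * z * T)) +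
          (1 - c (n * n * z * T) * c (z * T))) := by
      refine hm.mean.mono b3 (b1.add b2) fun T => ?_
      rcases hc ((n + z) * T) with ha | ha <;> rcases hc (n * n * z * T) with hb | hb <;>
        rcases hc (z * T) with hg | hg <;> rw [ha, hb, hg] <;> norm_num
    rw [hm.mean.add _ _ b1 b2] at e1
    have e2 : m (fun T => 1 - c (n * n * z * T) * c (z * T)) =
        m (fun T => 1 - c (n * n * T) * c T) := by
      rw [← hD z hz (fun T => 1 - c (n * n * T) * c T) b4]
      congr 1
      funext T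
      rw [mul_assoc (n * n) z T]
    have e3 := h2 n hn
    linarith

end Pool.Agent.Helper58.RS
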